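import Mathlib

/-!
# Powers of the sum of the generators in the rational group algebra of an infinite group
-/

namespace Pool.Agent.Helper13.PV

open Function
open scoped Pointwise

section

variable {Q : Type} [Group Q] (S : Finset Q)

/-- The products of `k` elements of `S`. -/
def ball : ℕ → Set Q
  | 0 => {1}
  | k + 1 => {q | ∃ s ∈ S, ∃ r ∈ ball k, q = s * r}

variable {S}

theorem ball_finite (k : ℕ) : (ball S k).Finite := by
  induction k with
  | zero => exact Set.finite_singleton _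
  | succ k ih =>
    have : ball S (k + 1) ⊆ (S : Set Q) * ball S k := by
      rintro q ⟨s, hs, r, hr, rfl⟩
      exact Set.mul_mem_mul hs hr
    exact ((S.finite_toSet).mul ih).subset this

theorem ball_mono (h1 : (1 : Q) ∈ S) (k : ℕ) : ball S k ⊆ ball S (k + 1) := by
  intro q hq
  exact ⟨1, h1, q, hq, (one_mul q).symm⟩

theorem one_mem_ball (h1 : (1 : Q) ∈ S) (k : ℕ) : (1 : Q) ∈ ball S k := by
  induction k with
  | zero => rfl
  | succ k ih => exact ball_mono h1 k ih

theorem exists_sphere (hS : Submonoid.closure (S : Set Q) = ⊤) (h1 : (1 : Q) ∈ S)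
    (hinf : Infinite Q) (k : ℕ) : ∃ q, q ∈ ball S (k + 1) ∧ q ∉ ball S k := by
  by_contra hcon
  push Not at hcon
  have hall : ∀ q : Q, q ∈ ball S k := by
    intro q
    have hq : q ∈ Submonoid.closure (S : Set Q) := by rw [hS]; trivial
    induction hq using Submonoid.closure_induction_left with
    | one => exact one_mem_ball h1 k
    | mul_left x hx y _ hy => exact hcon _ ⟨x, hx, y, hy, rfl⟩
  have : (Set.univ : Set Q) ⊆ ball S k := fun q _ => hall q
  exact Set.infinite_univ ((ball_finite k).subset this)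

variable (S)

/-- The sum of the elements of `S`. -/
noncomputable def xs : MonoidAlgebra ℚ Q := ∑ s ∈ S, MonoidAlgebra.single s 1

/-- `m 0 = 0`, `m 1 = 1`, `m (i + 2) = x * m (i + 1) + m i`. -/
noncomputable def ms : ℕ → MonoidAlgebra ℚ Q
  | 0 => 0
  | 1 => 1
  | i + 2 => xs S * ms (i + 1) + ms i

theorem ms_zero : ms S 0 = 0 := rfl
theorem ms_one : ms S 1 = 1 := rfl
theorem ms_step (i : ℕ) : ms S (i + 2) = xs S * ms S (i + 1) + ms S i := rfl

theorem xs_mul_apply (f : MonoidAlgebra ℚ Q) (q : Q) :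
    (xs S * f).coeff q = ∑ s ∈ S, f.coeff (s⁻¹ * q) := by
  unfold xs
  rw [Finset.sum_mul, MonoidAlgebra.coeff_sum, Finsupp.finset_sum_apply]
  apply Finset.sum_congr rfl
  intro s _
  rw [MonoidAlgebra.coeff_single_mul_apply, one_mul]

variable {S}

theorem ms_props (h1 : (1 : Q) ∈ S) (k : ℕ) :
    (∀ q, 0 ≤ (ms S k).coeff q) ∧ (∀ q, 0 ≤ (ms S (k + 1)).coeff q) ∧
      (∀ q ∈ ball S k, 0 < (ms S (k + 1)).coeff q) ∧
      (∀ q, q ∉ ball S k → (ms S (k + 1)).coeff q = 0) ∧
      (∀ q, q ∉ ball S k → (ms S k).coeff q = 0) := by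
  classical
  induction k with
  | zero =>
    refine ⟨fun q => ?_, fun q => ?_, fun q hq => ?_, fun q hq => ?_, fun q hq => ?_⟩
    · rw [ms_zero]; rfl
    · rw [ms_one, MonoidAlgebra.one_def, MonoidAlgebra.coeff_single_apply]
      split_ifs <;> norm_num
    · have : q = 1 := hq
      rw [this, ms_one, MonoidAlgebra.one_def, MonoidAlgebra.coeff_single_apply]
      simp
    · have : ¬ (1 = q) := fun h => hq h.symm
      rw [ms_one, MonoidAlgebra.one_def, MonoidAlgebra.coeff_single_apply, if_neg this]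
    · rw [ms_zero]; rfl
  | succ k ih =>
    obtain ⟨i1, i2, i3, i4, i5⟩ := ih
    have hval : ∀ q, (ms S (k + 1 + 1)).coeff q =
        (∑ s ∈ S, (ms S (k + 1)).coeff (s⁻¹ * q)) + (ms S k).coeff q := by
      intro q
      rw [ms_step, ← xs_mul_apply]
      rfl
    have hnn : ∀ q, 0 ≤ ∑ s ∈ S, (ms S (k + 1)).coeff (s⁻¹ * q) := fun q =>
      Finset.sum_nonneg fun s _ => i2 _
    refine ⟨i2, fun q => ?_, ?_, fun q hq => ?_, fun q hq => ?_⟩
    · rw [hval]
      exact add_nonneg (hnn q) (i1 q)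
    · rintro q ⟨s, hs, r, hr, rfl⟩
      rw [hval]
      have h2 : 0 < (ms S (k + 1)).coeff (s⁻¹ * (s * r)) := by
        rw [inv_mul_cancel_left]; exact i3 r hr
      have h3 : (ms S (k + 1)).coeff (s⁻¹ * (s * r)) ≤
          ∑ s' ∈ S, (ms S (k + 1)).coeff (s'⁻¹ * (s * r)) :=
        Finset.single_le_sum (f := fun s' => (ms S (k + 1)).coeff (s'⁻¹ * (s * r)))
          (fun s' _ => i2 _) hs
      have := i1 (s * r)
      linarith
    · rw [hval]
      have h2 : ∀ s ∈ S, (ms S (k + 1)).coeff (s⁻¹ * q) = 0 := by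
        intro s hs
        apply i4
        intro h
        exact hq ⟨s, hs, _, h, by rw [mul_inv_cancel_left]⟩
      rw [Finset.sum_eq_zero h2, i5 q (fun h => hq (ball_mono h1 k h)), add_zero]
    · exact i4 q (fun h => hq (ball_mono h1 k h))

theorem ms_indep (hS : Submonoid.closure (S : Set Q) = ⊤) (h1 : (1 : Q) ∈ S)
    (hinf : Infinite Q) : LinearIndependent ℚ (fun i : ℕ => ms S (i + 1)) := by
  classical
  have hsph : ∀ k : ℕ, ∃ q, q ∈ ball S k ∧ ∀ j < k, q ∉ ball S j := by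
    intro k
    cases k with
    | zero => exact ⟨1, one_mem_ball h1 0, fun j hj => absurd hj (Nat.not_lt_zero j)⟩
    | succ k =>
      obtain ⟨q, hq1, hq2⟩ := exists_sphere hS h1 hinf k
      have hm : Monotone (ball S) := monotone_nat_of_le_succ (ball_mono h1)
      exact ⟨q, hq1, fun j hj h => hq2 (hm (Nat.lt_succ_iff.mp hj) h)⟩
  rw [linearIndependent_iff']
  intro t g hg
  by_contra hcon
  push Not at hcon
  let t' := t.filter (fun i => g i ≠ 0)
  have hne : t'.Nonempty := by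
    obtain ⟨i, hi, hi2⟩ := hcon
    exact ⟨i, Finset.mem_filter.mpr ⟨hi, hi2⟩⟩
  obtain ⟨k, hk, hmax⟩ := t'.exists_max_image id hne
  obtain ⟨hk1, hk2⟩ := Finset.mem_filter.mp hk
  obtain ⟨q, hq1, hq2⟩ := hsph k
  have h2 := congrArg (fun f : MonoidAlgebra ℚ Q => f.coeff q) hg
  have h3 : (∑ i ∈ t, g i • ms S (i + 1)).coeff q = ∑ i ∈ t, g i * (ms S (i + 1)).coeff q := by
    rw [MonoidAlgebra.coeff_sum, Finsupp.finset_sum_apply]
    rfl
  have h4 : ∑ i ∈ t, g i * (ms S (i + 1)).coeff q = g k * (ms S (k + 1)).coeff q := by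
    apply Finset.sum_eq_single_of_mem k hk1
    intro j hj hjk
    rcases lt_or_gt_of_ne hjk with h | h
    · rw [(ms_props h1 j).2.2.2.1 q (hq2 j h), mul_zero]
    · have : g j = 0 := by
        by_contra hgj
        have := hmax j (Finset.mem_filter.mpr ⟨hj, hgj⟩)
        exact absurd this (not_le.mpr h)
      rw [this, zero_mul]
  have h5 : g k * (ms S (k + 1)).coeff q = 0 := by
    rw [← h4, ← h3]
    exact h2
  have h6 := (ms_props h1 k).2.2.1 q hq1
  rcases mul_eq_zero.mp h5 with h | h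
  · exact hk2 h
  · exact absurd h (ne_of_gt h6)

/-- A functional with value `1` at `m 1 = 1` and `0` at all `m (i + 2)`. -/
theorem exists_functional (hS : Submonoid.closure (S : Set Q) = ⊤) (h1 : (1 : Q) ∈ S)
    (hinf : Infinite Q) : ∃ Λ : MonoidAlgebra ℚ Q →ₗ[ℚ] ℚ,
      Λ (ms S 1) = 1 ∧ ∀ i : ℕ, Λ (ms S (i + 2)) = 0 := by
  have hli := ms_indep hS h1 hinf
  have hn : ms S 1 ∉ Submodule.span ℚ ((fun i : ℕ => ms S (i + 1)) '' {i | i ≠ 0}) := by
    have := hli.notMem_span_image (s := {i | i ≠ 0}) (x := 0) (by simp)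
    simpa using this
  obtain ⟨f, hf1, hf2⟩ := Submodule.exists_dual_map_eq_bot_of_notMem hn inferInstance
  refine ⟨(f (ms S 1))⁻¹ • f, ?_, ?_⟩
  · rw [LinearMap.smul_apply, smul_eq_mul, inv_mul_cancel₀ hf1]
  · intro i
    have h2 : f (ms S (i + 2)) = 0 := by
      have h3 : ms S (i + 2) ∈
          Submodule.span ℚ ((fun i : ℕ => ms S (i + 1)) '' {i | i ≠ 0}) :=
        Submodule.subset_span ⟨i + 1, by simp, rfl⟩
      have h4 : f (ms S (i + 2)) ∈ (Submodule.span ℚ
          ((fun i : ℕ => ms S (i + 1)) '' {i | i ≠ 0})).map f := ⟨_, h3, rfl⟩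
      rw [hf2] at h4
      exact (Submodule.mem_bot ℚ).mp h4
    rw [LinearMap.smul_apply, h2, smul_zero]

end

end Pool.Agent.Helper13.PV
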