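import Pool.Agent.Helper13.PV.Tool
import Pool.Agent.Helper13.PV.Indep

/-!
# Non-Hopfian groups when the right factor is not locally finite
-/

namespace Pool.Agent.Helper13.PV

open Pool.Agent.Helper32.SmallVar Function

variable {LU LW : Set (FreeGroup ℕ)}

section

variable {Q : Type} (S : Finset Q)

/-- The index type of the free generators. -/
abbrev Ix : Type := {s : Q // s ∈ S} ⊕ Fin 3

/-- The word `∏ s * e * s⁻¹`. -/
noncomputable def pr (l : List {s : Q // s ∈ S}) : FreeGroup (Ix S) :=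
  (l.map (fun s => FreeGroup.of (Sum.inl s) * FreeGroup.of (Sum.inr 1) *
    (FreeGroup.of (Sum.inl s))⁻¹)).prod

/-- The automorphism of the free group. -/
noncomputable def au : FreeGroup (Ix S) →* FreeGroup (Ix S) :=
  FreeGroup.lift (Sum.elim (fun s => FreeGroup.of (Sum.inl s))
    ![FreeGroup.of (Sum.inr 0), pr S S.attach.toList * FreeGroup.of (Sum.inr 2),
      FreeGroup.of (Sum.inr 1)])

theorem au_inl (s : {s : Q // s ∈ S}) :
    au S (FreeGroup.of (Sum.inl s)) = FreeGroup.of (Sum.inl s) := by simp [au]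

theorem au_0 : au S (FreeGroup.of (Sum.inr 0)) = FreeGroup.of (Sum.inr 0) := by simp [au]

theorem au_1 : au S (FreeGroup.of (Sum.inr 1)) =
    pr S S.attach.toList * FreeGroup.of (Sum.inr 2) := by simp [au]

theorem au_2 : au S (FreeGroup.of (Sum.inr 2)) = FreeGroup.of (Sum.inr 1) := by simp [au]

theorem au_surj : Surjective (au S) := by
  rw [← MonoidHom.range_eq_top, eq_top_iff, ← FreeGroup.closure_range_of (Ix S),
    Subgroup.closure_le]
  have hs : ∀ s, FreeGroup.of (Sum.inl s) ∈ (au S).range := fun s => ⟨_, au_inl S s⟩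
  have h0 : FreeGroup.of (Sum.inr 0) ∈ (au S).range := ⟨_, au_0 S⟩
  have h1 : FreeGroup.of (Sum.inr 1) ∈ (au S).range := ⟨_, au_2 S⟩
  have hp : ∀ l, pr S l ∈ (au S).range := by
    intro l
    apply Subgroup.list_prod_mem
    intro x hx
    obtain ⟨s, -, rfl⟩ := List.mem_map.mp hx
    exact Subgroup.mul_mem _ (Subgroup.mul_mem _ (hs s) h1) (Subgroup.inv_mem _ (hs s))
  have h2 : FreeGroup.of (Sum.inr 2) ∈ (au S).range := by
    have h3 : pr S S.attach.toList * FreeGroup.of (Sum.inr 2) ∈ (au S).range := ⟨_, au_1 S⟩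
    have h4 := Subgroup.mul_mem _ (Subgroup.inv_mem _ (hp S.attach.toList)) h3
    rwa [inv_mul_cancel_left] at h4
  rintro _ ⟨i, rfl⟩
  rcases i with s | i
  · exact hs s
  · fin_cases i
    · exact h0
    · exact h1
    · exact h2

variable [Group Q] {D : Type} [Group D] (β : Multiplicative ℚ →* D)

/-- The element of the base group given by a rational function. -/
def bb (f : Q → ℚ) : RegularWreathProduct D Q := bas (fun q => β (Multiplicative.ofAdd (f q)))

theorem bb_add (f g : Q → ℚ) : bb β (f + g) = bb β f * bb β g := by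
  unfold bb
  rw [← map_mul]
  congr 1
  funext q
  rw [Pi.add_apply, ofAdd_add, map_mul, Pi.mul_apply]

theorem bb_zero : bb (Q := Q) β 0 = 1 := by
  unfold bb
  rw [← map_one bas]
  congr 1
  funext q
  rw [Pi.zero_apply, ofAdd_zero, map_one, Pi.one_apply]

theorem conj_bb (q : Q) (f : Q → ℚ) :
    RegularWreathProduct.inl q * bb β f * (RegularWreathProduct.inl q)⁻¹ =
      bb β (fun x => f (q⁻¹ * x)) := conj_bas q _

variable {S}

/-- Iterates of the automorphism. -/
theorem au_iter (ρ : FreeGroup (Ix S) →* RegularWreathProduct D Q)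
    (h : ∀ s : {s : Q // s ∈ S}, ρ (FreeGroup.of (Sum.inl s)) = RegularWreathProduct.inl (s : Q))
    (f : ℕ → Q → ℚ) (hf : ∀ i q, f (i + 2) q = (∑ s ∈ S, f (i + 1) (s⁻¹ * q)) + f i q)
    (h1 : ρ (FreeGroup.of (Sum.inr 1)) = bb β (f 1))
    (h2 : ρ (FreeGroup.of (Sum.inr 2)) = bb β (f 0)) (i : ℕ) :
    ρ ((au S)^[i] (FreeGroup.of (Sum.inr 1))) = bb β (f (i + 1)) ∧
      ρ ((au S)^[i] (FreeGroup.of (Sum.inr 2))) = bb β (f i) := by
  have hin : ∀ (i : ℕ) (s : {s : Q // s ∈ S}),
      (au S)^[i] (FreeGroup.of (Sum.inl s)) = FreeGroup.of (Sum.inl s) := by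
    intro i s
    induction i with
    | zero => rfl
    | succ i ih => rw [iterate_succ_apply, au_inl, ih]
  induction i with
  | zero => exact ⟨h1, h2⟩
  | succ i ih =>
    obtain ⟨ih1, ih2⟩ := ih
    constructor
    · rw [iterate_succ_apply, au_1, iterate_map_mul, map_mul, ih2]
      have hl : ∀ l : List {s : Q // s ∈ S}, ρ ((au S)^[i] (pr S l)) =
          bb β (fun q => (l.map (fun s : {s : Q // s ∈ S} => f (i + 1) ((s : Q)⁻¹ * q))).sum) := by
        intro l
        induction l with
        | nil =>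
          have : pr S ([] : List {s : Q // s ∈ S}) = 1 := rfl
          rw [this, iterate_map_one, map_one]
          exact (bb_zero β).symm
        | cons s l ihl =>
          have h3 : pr S (s :: l) = FreeGroup.of (Sum.inl s) * FreeGroup.of (Sum.inr 1) *
              (FreeGroup.of (Sum.inl s))⁻¹ * pr S l := by
            simp [pr]
          rw [h3, iterate_map_mul, iterate_map_mul, iterate_map_mul, iterate_map_inv, map_mul,
            map_mul, map_mul, map_inv, hin, h, ih1, ihl, conj_bb, ← bb_add]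
          congr 1
      rw [hl, ← bb_add]
      congr 1
      funext q
      rw [hf, Pi.add_apply]
      congr 1
      have h4 : (S.attach.toList.map
          (fun s : {s : Q // s ∈ S} => f (i + 1) ((s : Q)⁻¹ * q))).sum =
          ∑ s ∈ S.attach, f (i + 1) ((s : Q)⁻¹ * q) := by
        rw [Finset.sum_map_toList]
      rw [h4]
      exact Finset.sum_attach S (fun s => f (i + 1) (s⁻¹ * q))
    · rw [iterate_succ_apply, au_2, ih1]

/-- The non-Hopfian group over an infinite finitely generated group. -/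
theorem nonHopfian_of_rat (hD : SatisfiesLaws LU D) (hQ : SatisfiesLaws LW Q)
    (hfg : Group.FG Q) (hinf : Infinite Q) (a : D)
    (hab : a * β (Multiplicative.ofAdd 1) ≠ β (Multiplicative.ofAdd 1) * a) :
    ∃ (G : Type) (_ : Group G), Group.FG G ∧ InProduct LU LW G ∧ ¬ IsHopfian G := by
  classical
  obtain ⟨S₀, hS₀⟩ := (Group.fg_iff_monoid_fg.mp hfg).fg_top
  let S : Finset Q := insert 1 S₀
  have h1S : (1 : Q) ∈ S := Finset.mem_insert_self _ _
  have hS : Submonoid.closure (S : Set Q) = ⊤ := by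
    rw [eq_top_iff, ← hS₀]
    apply Submonoid.closure_mono
    intro x hx
    exact Finset.mem_insert_of_mem hx
  obtain ⟨Λ, hΛ1, hΛ2⟩ := exists_functional hS h1S hinf
  let f : ℕ → Q → ℚ := fun i q => Λ (MonoidAlgebra.single q⁻¹ 1 * ms S i)
  have hf : ∀ i q, f (i + 2) q = (∑ s ∈ S, f (i + 1) (s⁻¹ * q)) + f i q := by
    intro i q
    simp only [f]
    rw [ms_step, mul_add, map_add, ← mul_assoc]
    congr 1
    rw [← map_sum]
    congr 1
    unfold xs
    rw [Finset.mul_sum, Finset.sum_mul]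
    apply Finset.sum_congr rfl
    intro s _
    rw [MonoidAlgebra.single_mul_single, mul_one, mul_inv_rev, inv_inv]
  have hf1 : f 1 1 = 1 := by
    simp only [f]
    rw [inv_one, ← MonoidAlgebra.one_def, one_mul, hΛ1]
  have hf2 : ∀ i, f (i + 2) 1 = 0 := by
    intro i
    simp only [f]
    rw [inv_one, ← MonoidAlgebra.one_def, one_mul, hΛ2]
  let ρ : FreeGroup (Ix S) →* RegularWreathProduct D Q :=
    FreeGroup.lift (Sum.elim (fun s => RegularWreathProduct.inl (s : Q))
      ![bas (Pi.mulSingle 1 a), bb β (f 1), bb β (f 0)])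
  have r0 : ρ (FreeGroup.of (Sum.inr 0)) = bas (Pi.mulSingle 1 a) := by simp [ρ]
  have r1 : ρ (FreeGroup.of (Sum.inr 1)) = bb β (f 1) := by simp [ρ]
  have r2 : ρ (FreeGroup.of (Sum.inr 2)) = bb β (f 0) := by simp [ρ]
  have rs : ∀ s : {s : Q // s ∈ S}, ρ (FreeGroup.of (Sum.inl s)) =
      RegularWreathProduct.inl (s : Q) := by
    intro s
    simp [ρ]
  have hit := au_iter β ρ rs f hf r1 r2
  have hi0 : ∀ i : ℕ, (au S)^[i] (FreeGroup.of (Sum.inr 0)) = FreeGroup.of (Sum.inr 0) := by
    intro i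
    induction i with
    | zero => rfl
    | succ i ih => rw [iterate_succ_apply, au_0, ih]
  let v : FreeGroup (Ix S) := FreeGroup.of (Sum.inr 0) * FreeGroup.of (Sum.inr 1) *
    (FreeGroup.of (Sum.inr 0))⁻¹ * (FreeGroup.of (Sum.inr 1))⁻¹
  have key : ∀ i : ℕ, ρ ((au S)^[i] v) = 1 ↔
      a * β (Multiplicative.ofAdd (f (i + 1) 1)) = β (Multiplicative.ofAdd (f (i + 1) 1)) * a := by
    intro i
    have h1 : ρ ((au S)^[i] v) = bas (Pi.mulSingle 1 a) * bb β (f (i + 1)) *
        (bas (Pi.mulSingle 1 a))⁻¹ * (bb β (f (i + 1)))⁻¹ := by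
      simp only [v]
      rw [iterate_map_mul, iterate_map_mul, iterate_map_mul, iterate_map_inv, iterate_map_inv,
        hi0, map_mul, map_mul, map_mul, map_inv, map_inv, r0, (hit i).1]
    rw [h1]
    exact comm_single a (fun q => β (Multiplicative.ofAdd (f (i + 1) q)))
  refine tool (au S) ρ (au_surj S) (wreath_inProduct hD hQ) v ?_ ?_
  · intro h
    have h1 := (key 0).mp h
    rw [zero_add, hf1] at h1
    exact hab h1
  · intro i
    refine (key (i + 1)).mpr ?_
    rw [hf2, ofAdd_zero, map_one, mul_one, one_mul]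

end

end Pool.Agent.Helper13.PV
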