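import Pool.Agent.Helper32.SmallVar.Final

/-!
# Product varieties: definitions and basic closure properties
-/

namespace Pool.Agent.Helper13.PV

open Pool.Agent.Helper32.SmallVar Function

universe u v

/-- `G` lies in the product variety `U W`, where `U` and `W` are the varieties with the laws
`LU` and `LW`: some normal subgroup of `G` lies in `U` with quotient in `W`. -/
def InProduct (LU LW : Set (FreeGroup ℕ)) (G : Type u) [Group G] : Prop :=
  ∃ N : Subgroup G, ∃ _ : N.Normal, SatisfiesLaws LU N ∧ SatisfiesLaws LW (G ⧸ N)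

/-- Every finitely generated group in the variety with the laws `L` is Hopfian. -/
def AllHopfian (L : Set (FreeGroup ℕ)) : Prop :=
  ∀ (G : Type) [Group G], Group.FG G → SatisfiesLaws L G → IsHopfian G

/-- The variety with the laws `L` consists of abelian groups. -/
def IsAbelianVariety (L : Set (FreeGroup ℕ)) : Prop :=
  ∀ (G : Type) [Group G], SatisfiesLaws L G → ∀ a b : G, a * b = b * a

/-- Every finitely generated group in the variety with the laws `L` is finite. -/
def LocallyFiniteVariety (L : Set (FreeGroup ℕ)) : Prop :=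
  ∀ (G : Type) [Group G], Group.FG G → SatisfiesLaws L G → Finite G

/-- The variety with the laws `L` satisfies a law `[x, y ^ k] = 1`, `k ≥ 1`. -/
def CentralByExponent (L : Set (FreeGroup ℕ)) : Prop :=
  ∃ k : ℕ, 1 ≤ k ∧ ∀ (G : Type) [Group G], SatisfiesLaws L G →
    ∀ x y : G, x * y ^ k = y ^ k * x

/-- The verbal subgroup of `G` for the laws `L`. -/
def verb (L : Set (FreeGroup ℕ)) (G : Type u) [Group G] : Subgroup G :=
  Subgroup.normalClosure {g | ∃ w ∈ L, ∃ a : ℕ → G, FreeGroup.lift a w = g}

/-- The laws `u (w_1, w_2, ..)` of the product variety `U W`: the laws `u` of `U` evaluated at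
elements of the verbal subgroup of the free group for the laws of `W`. -/
def prodLaws (LU LW : Set (FreeGroup ℕ)) : Set (FreeGroup ℕ) :=
  {w | ∃ u ∈ LU, ∃ ψ : ℕ → FreeGroup ℕ, (∀ i, ψ i ∈ verb LW (FreeGroup ℕ)) ∧
    FreeGroup.lift ψ u = w}

variable {L LU LW : Set (FreeGroup ℕ)}

theorem map_lift {G : Type u} {H : Type v} [Group G] [Group H] (f : G →* H) (a : ℕ → G)
    (w : FreeGroup ℕ) : f (FreeGroup.lift a w) = FreeGroup.lift (fun n => f (a n)) w := by
  have : f.comp (FreeGroup.lift a) = FreeGroup.lift (fun n => f (a n)) := by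
    ext n
    simp
  rw [← this]; rfl

theorem laws_of_inj {G : Type u} {H : Type v} [Group G] [Group H] (f : G →* H)
    (hf : Injective f) (h : SatisfiesLaws L H) : SatisfiesLaws L G := by
  intro w hw a
  apply hf
  rw [map_lift, map_one]
  exact h w hw _

theorem laws_of_surj {G : Type u} {H : Type v} [Group G] [Group H] (f : G →* H)
    (hf : Surjective f) (h : SatisfiesLaws L G) : SatisfiesLaws L H := by
  intro w hw a
  choose b hb using fun n => hf (a n)
  have h1 := h w hw b
  have h2 := map_lift f b w
  rw [h1, map_one] at h2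
  have h3 : (fun n => f (b n)) = a := funext hb
  rw [h3] at h2
  exact h2.symm

theorem laws_pi {ι : Type v} {G : ι → Type u} [∀ i, Group (G i)]
    (h : ∀ i, SatisfiesLaws L (G i)) : SatisfiesLaws L (∀ i, G i) := by
  intro w hw a
  funext i
  have h2 := map_lift (Pi.evalMonoidHom G i) a w
  have h3 := h i w hw (fun n => (a n) i)
  exact h2.trans h3

theorem verb_le {G : Type u} [Group G] {N : Subgroup G} [N.Normal] :
    verb L G ≤ N ↔ SatisfiesLaws L (G ⧸ N) := by
  constructor
  · intro h w hw a
    choose b hb using fun n => QuotientGroup.mk'_surjective N (a n)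
    have h2 := map_lift (QuotientGroup.mk' N) b w
    have h3 : (fun n => QuotientGroup.mk' N (b n)) = a := funext hb
    rw [h3] at h2
    rw [← h2, QuotientGroup.mk'_apply, QuotientGroup.eq_one_iff]
    exact h (Subgroup.subset_normalClosure ⟨w, hw, b, rfl⟩)
  · intro h
    apply Subgroup.normalClosure_le_normal
    rintro g ⟨w, hw, a, rfl⟩
    have h2 := map_lift (QuotientGroup.mk' N) a w
    rw [h w hw, QuotientGroup.mk'_apply, QuotientGroup.eq_one_iff] at h2
    exact h2

instance verb_normal {G : Type u} [Group G] : (verb L G).Normal :=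
  Subgroup.normalClosure_normal

theorem inProduct_iff {G : Type u} [Group G] :
    InProduct LU LW G ↔ SatisfiesLaws LU (verb LW G) := by
  constructor
  · rintro ⟨N, hN, h1, h2⟩
    exact laws_of_inj (Subgroup.inclusion (verb_le.mpr h2)) (Subgroup.inclusion_injective _) h1
  · intro h
    exact ⟨verb LW G, inferInstance, h, verb_le.mp le_rfl⟩

theorem map_verb_le {G : Type u} {H : Type v} [Group G] [Group H] (f : G →* H) :
    (verb L G).map f ≤ verb L H := by
  rw [Subgroup.map_le_iff_le_comap]
  apply Subgroup.normalClosure_le_normal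
  rintro g ⟨w, hw, a, rfl⟩
  show f _ ∈ verb L H
  rw [map_lift]
  exact Subgroup.subset_normalClosure ⟨w, hw, _, rfl⟩

theorem map_verb {G : Type u} {H : Type v} [Group G] [Group H] (f : G →* H)
    (hf : Surjective f) : (verb L G).map f = verb L H := by
  apply le_antisymm (map_verb_le f)
  have : ((verb L G).map f).Normal := Subgroup.Normal.map inferInstance f hf
  apply Subgroup.normalClosure_le_normal
  rintro g ⟨w, hw, a, rfl⟩
  choose b hb using fun n => hf (a n)
  refine ⟨FreeGroup.lift b w, Subgroup.subset_normalClosure ⟨w, hw, b, rfl⟩, ?_⟩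
  rw [map_lift]
  have h3 : (fun n => f (b n)) = a := funext hb
  rw [h3]

theorem inProduct_of_inj {G : Type u} {H : Type v} [Group G] [Group H] (f : G →* H)
    (hf : Injective f) (h : InProduct LU LW H) : InProduct LU LW G := by
  rw [inProduct_iff] at h ⊢
  have h1 : ∀ x : verb LW G, f x ∈ verb LW H := fun x => map_verb_le f ⟨x, x.2, rfl⟩
  refine laws_of_inj (L := LU) ((f.comp (verb LW G).subtype).codRestrict (verb LW H) h1) ?_ h
  intro x y hxy
  apply Subtype.ext
  apply hf
  exact congrArg Subtype.val hxy

theorem inProduct_of_surj {G : Type u} {H : Type v} [Group G] [Group H] (f : G →* H)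
    (hf : Surjective f) (h : InProduct LU LW G) : InProduct LU LW H := by
  rw [inProduct_iff] at h ⊢
  have h1 : ∀ x : verb LW G, f x ∈ verb LW H := fun x => map_verb_le f ⟨x, x.2, rfl⟩
  refine laws_of_surj (L := LU) ((f.comp (verb LW G).subtype).codRestrict (verb LW H) h1) ?_ h
  rintro ⟨y, hy⟩
  have hy2 := hy
  rw [← map_verb f hf] at hy2
  obtain ⟨x, hx, rfl⟩ := hy2
  exact ⟨⟨x, hx⟩, rfl⟩

theorem inProduct_left {G : Type u} [Group G] (h : SatisfiesLaws LU G) :
    InProduct LU LW G := by
  rw [inProduct_iff]
  exact laws_of_inj (verb LW G).subtype Subtype.val_injective h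

/-- The quotient by the intersection of the kernels of homomorphisms to groups of the product
variety lies in the product variety. -/
theorem inProduct_quotient {F : Type u} [Group F] {I : Type*} {P : I → Type v}
    [∀ i, Group (P i)] (hP : ∀ i, InProduct LU LW (P i)) (ρ : ∀ i, F →* P i) (R : Subgroup F)
    [R.Normal] (hR : ∀ f, (∀ i, ρ i f = 1) → f ∈ R) : InProduct LU LW (F ⧸ R) := by
  have hP' : ∀ i, SatisfiesLaws LU (verb LW (P i)) := fun i => inProduct_iff.mp (hP i)
  rw [inProduct_iff]
  intro w hw a
  have hs := map_verb (L := LW) (QuotientGroup.mk' R) (QuotientGroup.mk'_surjective R)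
  have h1 : ∀ n, ∃ b : verb LW F, QuotientGroup.mk' R b = (a n : F ⧸ R) := by
    intro n
    obtain ⟨x, hx, hx2⟩ := hs.ge (a n).2
    exact ⟨⟨x, hx⟩, hx2⟩
  choose b hb using h1
  apply Subtype.ext
  have h3 := map_lift (verb LW (F ⧸ R)).subtype a w
  have h4 : (fun n => (verb LW (F ⧸ R)).subtype (a n)) =
      fun n => ((QuotientGroup.mk' R).comp (verb LW F).subtype) (b n) :=
    funext fun n => (hb n).symm
  rw [h4, ← map_lift] at h3
  refine h3.trans ?_
  show QuotientGroup.mk' R ((FreeGroup.lift b w : verb LW F) : F) = 1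
  rw [QuotientGroup.mk'_apply, QuotientGroup.eq_one_iff]
  apply hR
  intro i
  have h5 : ∀ x : verb LW F, ρ i x ∈ verb LW (P i) := fun x => map_verb_le (ρ i) ⟨x, x.2, rfl⟩
  have h6 := map_lift (((ρ i).comp (verb LW F).subtype).codRestrict (verb LW (P i)) h5) b w
  rw [hP' i w hw] at h6
  exact congrArg Subtype.val h6

end Pool.Agent.Helper13.PV
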