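import Pool.Agent.Helper13.PV.Tool

/-!
# Right factors of infinite exponent
-/

namespace Pool.Agent.Helper13.PV

open Pool.Agent.Helper32.SmallVar Function

variable {LU LW : Set (FreeGroup ℕ)}

section

/-- The automorphism `s ↦ s t` of the free group on `s, t, e, f`. -/
def shear : FreeGroup (Fin 4) →* FreeGroup (Fin 4) :=
  FreeGroup.lift ![FreeGroup.of 0 * FreeGroup.of 1, FreeGroup.of 1, FreeGroup.of 2,
    FreeGroup.of 3]

theorem shear_surj : Surjective shear := by
  rw [← MonoidHom.range_eq_top, eq_top_iff, ← FreeGroup.closure_range_of (Fin 4),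
    Subgroup.closure_le]
  have h1 : FreeGroup.of 1 ∈ shear.range := ⟨FreeGroup.of 1, by simp [shear]⟩
  have h2 : FreeGroup.of 2 ∈ shear.range := ⟨FreeGroup.of 2, by simp [shear]⟩
  have h3 : FreeGroup.of 3 ∈ shear.range := ⟨FreeGroup.of 3, by simp [shear]⟩
  have h0 : FreeGroup.of 0 * FreeGroup.of 1 ∈ shear.range := ⟨FreeGroup.of 0, by simp [shear]⟩
  have h0' : FreeGroup.of 0 ∈ shear.range := by
    have := Subgroup.mul_mem _ h0 (Subgroup.inv_mem _ h1)
    rwa [mul_inv_cancel_right] at this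
  rintro _ ⟨i, rfl⟩
  fin_cases i
  · exact h0'
  · exact h1
  · exact h2
  · exact h3

theorem shear_iter (i : ℕ) : shear^[i] (FreeGroup.of 0) = FreeGroup.of 0 * FreeGroup.of 1 ^ i ∧
    shear^[i] (FreeGroup.of 1) = FreeGroup.of 1 ∧ shear^[i] (FreeGroup.of 2) = FreeGroup.of 2 ∧
    shear^[i] (FreeGroup.of 3) = FreeGroup.of 3 := by
  induction i with
  | zero => simp
  | succ i ih =>
    obtain ⟨a0, a1, a2, a3⟩ := ih
    have b0 : shear (FreeGroup.of 0) = FreeGroup.of 0 * FreeGroup.of 1 := by simp [shear]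
    have b1 : shear (FreeGroup.of 1) = FreeGroup.of 1 := by simp [shear]
    have b2 : shear (FreeGroup.of 2) = FreeGroup.of 2 := by simp [shear]
    have b3 : shear (FreeGroup.of 3) = FreeGroup.of 3 := by simp [shear]
    refine ⟨?_, ?_, ?_, ?_⟩
    · rw [iterate_succ_apply, b0, iterate_map_mul, a0, a1, pow_succ, mul_assoc]
    · rw [iterate_succ_apply, b1, a1]
    · rw [iterate_succ_apply, b2, a2]
    · rw [iterate_succ_apply, b3, a3]

/-- If `U` is not abelian and `W` contains the infinite cyclic group, then `U W` contains a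
finitely generated non-Hopfian group. -/
theorem nonHopfian_of_int (hU : ¬ IsAbelianVariety LU)
    (hW : SatisfiesLaws LW (Multiplicative ℤ)) :
    ∃ (G : Type) (_ : Group G), Group.FG G ∧ InProduct LU LW G ∧ ¬ IsHopfian G := by
  unfold IsAbelianVariety at hU
  push Not at hU
  obtain ⟨D, _, hD, a, b, hab⟩ := hU
  let Q := Fin 2 → Multiplicative ℤ
  have hQ : SatisfiesLaws LW Q := laws_pi fun _ => hW
  let s : Q := Pi.mulSingle 0 (Multiplicative.ofAdd 1)
  let t : Q := Pi.mulSingle 1 (Multiplicative.ofAdd 1)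
  let e : RegularWreathProduct D Q := bas (Pi.mulSingle 1 a)
  let f : RegularWreathProduct D Q := bas (Pi.mulSingle s b)
  let ρ : FreeGroup (Fin 4) →* RegularWreathProduct D Q :=
    FreeGroup.lift ![RegularWreathProduct.inl s, RegularWreathProduct.inl t, e, f]
  let w : FreeGroup (Fin 4) := (FreeGroup.of 0)⁻¹ * FreeGroup.of 3 * FreeGroup.of 0
  have r0 : ρ (FreeGroup.of 0) = RegularWreathProduct.inl s := by simp [ρ]
  have r1 : ρ (FreeGroup.of 1) = RegularWreathProduct.inl t := by simp [ρ]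
  have r2 : ρ (FreeGroup.of 2) = e := by simp [ρ]
  have r3 : ρ (FreeGroup.of 3) = f := by simp [ρ]
  have key : ∀ i : ℕ, ρ (shear^[i] w) = bas (fun x => (Pi.mulSingle s b : Q → D) (s * t ^ i * x)) := by
    intro i
    obtain ⟨a0, -, -, a3⟩ := shear_iter i
    have h1 : shear^[i] w = (FreeGroup.of 0 * FreeGroup.of 1 ^ i)⁻¹ * FreeGroup.of 3 *
        (FreeGroup.of 0 * FreeGroup.of 1 ^ i) := by
      simp only [w]
      rw [iterate_map_mul, iterate_map_mul, iterate_map_inv, a0, a3]
    rw [h1, map_mul, map_mul, map_inv, map_mul, map_pow, r0, r1, r3, ← map_pow, ← map_mul]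
    have h2 := conj_bas (s * t ^ i)⁻¹ (Pi.mulSingle s b : Q → D)
    rw [map_inv, inv_inv] at h2
    rw [h2, inv_inv]
  let v : FreeGroup (Fin 4) := FreeGroup.of 2 * w * (FreeGroup.of 2)⁻¹ * w⁻¹
  have key2 : ∀ i : ℕ, ρ (shear^[i] v) = 1 ↔
      a * (Pi.mulSingle s b : Q → D) (s * t ^ i * 1) =
        (Pi.mulSingle s b : Q → D) (s * t ^ i * 1) * a := by
    intro i
    obtain ⟨-, -, a2, -⟩ := shear_iter i
    have h1 : ρ (shear^[i] v) = e * ρ (shear^[i] w) * e⁻¹ * (ρ (shear^[i] w))⁻¹ := by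
      simp only [v]
      rw [iterate_map_mul, iterate_map_mul, iterate_map_mul, iterate_map_inv, iterate_map_inv,
        a2, map_mul, map_mul, map_mul, map_inv, map_inv, r2]
    rw [h1, key]
    exact comm_single a (fun x => (Pi.mulSingle s b : Q → D) (s * t ^ i * x))
  refine tool shear ρ shear_surj (wreath_inProduct hD hQ) v ?_ ?_
  · intro h
    have h1 := (key2 0).mp h
    rw [pow_zero, mul_one, mul_one, Pi.mulSingle_eq_same] at h1
    exact hab h1
  · intro i
    refine (key2 (i + 1)).mpr ?_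
    rw [mul_one]
    have h1 : s * t ^ (i + 1) ≠ s := by
      intro h
      have h2 : t ^ (i + 1) = 1 := by simpa using h
      have h3 : (t 1) ^ (i + 1) = 1 := congrFun h2 1
      have ht : t 1 = Multiplicative.ofAdd 1 := Pi.mulSingle_eq_same _ _
      rw [ht] at h3
      have h4 := congrArg Multiplicative.toAdd h3
      rw [toAdd_pow, toAdd_ofAdd, toAdd_one] at h4
      simp at h4
      omega
    rw [Pi.mulSingle_eq_of_ne h1, mul_one, one_mul]

end

end Pool.Agent.Helper13.PV
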