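import Pool.Agent.Helper13.PV.Tool

/-!
# Products with a right factor that is not locally finite are not small
-/

namespace Pool.Agent.Helper13.PV

open Pool.Agent.Helper32.SmallVar Function

variable {L LU LW : Set (FreeGroup ℕ)}

/-- Uncountably many normal subgroups contradict smallness. -/
theorem not_small_of_injective {κ : Type} [Finite κ] (R : (ℕ → Bool) → Subgroup (FreeGroup κ))
    (hR : Injective R) [hn : ∀ ε, (R ε).Normal]
    (hL : ∀ ε, SatisfiesLaws L (FreeGroup κ ⧸ R ε)) : ¬ IsSmallVariety L := by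
  obtain ⟨c, hc⟩ := exists_noniso R hR
  rintro ⟨H', hH'⟩
  have h4 : ∀ ε, ∃ i, Nonempty (FreeGroup κ ⧸ R (c ε) ≃* H' i) := by
    intro ε
    exact hH' _ inferInstance (hL _)
  choose i hi using h4
  have hinj : Injective i := by
    intro ε δ h
    apply hc
    obtain ⟨e⟩ := hi ε
    obtain ⟨f⟩ := hi δ
    rw [← h] at f
    exact ⟨e.trans f.symm⟩
  have h7 : Cardinal.aleph0 < Cardinal.mk (ℕ → Bool) := by
    simpa using Cardinal.aleph0_lt_continuum
  have h5 : Countable (ℕ → Bool) := hinj.countable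
  have h6 : Cardinal.mk (ℕ → Bool) ≤ Cardinal.aleph0 := Cardinal.mk_le_aleph0_iff.mpr h5
  exact absurd h6 (not_le.mpr h7)

open Classical in
theorem notSmall_of_not_lf (hU : ¬ IsAbelianVariety LU) (hW : ¬ LocallyFiniteVariety LW)
    (hV : ∀ (G : Type) [Group G], InProduct LU LW G → SatisfiesLaws L G) :
    ¬ IsSmallVariety L := by
  unfold IsAbelianVariety at hU
  unfold LocallyFiniteVariety at hW
  push Not at hU hW
  obtain ⟨D, _, hD, a, b, hab⟩ := hU
  obtain ⟨Q, _, hfg, hQ, hinf⟩ := hW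
  obtain ⟨S, hS⟩ := hfg.out

  let j : ℕ ↪ Q := Infinite.natEmbedding Q
  let κ : Type := {s : Q // s ∈ S} ⊕ Fin 2
  let fn : (ℕ → Bool) → (Q → D) := fun ε q => if ∃ n, j n = q ∧ ε n = true then b else 1
  let ρ : (ℕ → Bool) → FreeGroup κ →* RegularWreathProduct D Q := fun ε =>
    FreeGroup.lift (Sum.elim (fun s => RegularWreathProduct.inl (s : Q))
      ![bas (Pi.mulSingle 1 a), bas (fn ε)])
  have hfn : ∀ ε n, fn ε (j n) = if ε n = true then b else 1 := by
    intro ε n
    simp only [fn]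
    congr 1
    apply propext
    constructor
    · rintro ⟨m, hm, hm2⟩
      rw [← j.injective hm]; exact hm2
    · intro h
      exact ⟨n, rfl, h⟩
  have hword : ∀ q : Q, ∃ w : FreeGroup κ, ∀ ε, ρ ε w = RegularWreathProduct.inl q := by
    intro q
    have hq : q ∈ Subgroup.closure (S : Set Q) := by rw [hS]; trivial
    induction hq using Subgroup.closure_induction with
    | mem x hx => exact ⟨FreeGroup.of (Sum.inl ⟨x, hx⟩), fun ε => by simp [ρ]⟩
    | one => exact ⟨1, fun ε => by rw [map_one, map_one]⟩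
    | mul x y _ _ hx hy =>
      obtain ⟨u, hu⟩ := hx
      obtain ⟨v, hv⟩ := hy
      exact ⟨u * v, fun ε => by rw [map_mul, map_mul, hu, hv]⟩
    | inv x _ hx =>
      obtain ⟨u, hu⟩ := hx
      exact ⟨u⁻¹, fun ε => by rw [map_inv, map_inv, hu]⟩
  choose wd hwd using hword
  have key : ∀ ε n, ρ ε (FreeGroup.of (Sum.inr 0) *
      (wd (j n)⁻¹ * FreeGroup.of (Sum.inr 1) * (wd (j n)⁻¹)⁻¹) * (FreeGroup.of (Sum.inr 0))⁻¹ *
      (wd (j n)⁻¹ * FreeGroup.of (Sum.inr 1) * (wd (j n)⁻¹)⁻¹)⁻¹) = 1 ↔ ε n = false := by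
    intro ε n
    have r0 : ρ ε (FreeGroup.of (Sum.inr 0)) = bas (Pi.mulSingle 1 a) := by simp [ρ]
    have r1 : ρ ε (FreeGroup.of (Sum.inr 1)) = bas (fn ε) := by simp [ρ]
    have r2 : ρ ε (wd (j n)⁻¹ * FreeGroup.of (Sum.inr 1) * (wd (j n)⁻¹)⁻¹) =
        bas (fun x => fn ε (j n * x)) := by
      rw [map_mul, map_mul, map_inv, hwd, r1, conj_bas, inv_inv]
    rw [map_mul, map_mul, map_mul, map_inv, map_inv, r0, r2, comm_single, mul_one, hfn]
    cases ε n with
    | true => simpa using hab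
    | false => simp
  have hinj : Injective (fun ε => (ρ ε).ker) := by
    intro ε δ h
    funext n
    have h1 := SetLike.ext_iff.mp h (FreeGroup.of (Sum.inr 0) *
      (wd (j n)⁻¹ * FreeGroup.of (Sum.inr 1) * (wd (j n)⁻¹)⁻¹) * (FreeGroup.of (Sum.inr 0))⁻¹ *
      (wd (j n)⁻¹ * FreeGroup.of (Sum.inr 1) * (wd (j n)⁻¹)⁻¹)⁻¹)
    simp only [MonoidHom.mem_ker] at h1
    rw [key, key] at h1
    cases h2 : ε n <;> cases h3 : δ n <;> simp_all
  refine not_small_of_injective (fun ε => (ρ ε).ker) hinj ?_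
  intro ε
  apply hV
  exact inProduct_of_inj (QuotientGroup.kerLift (ρ ε)) (QuotientGroup.kerLift_injective _)
    (wreath_inProduct hD hQ)

end Pool.Agent.Helper13.PV
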