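import Pool.Agent.Helper13.PV.Big
import Pool.Agent.Helper13.PV.InfExp
import Pool.Agent.Helper13.PV.NotSmall

/-!
# Divisible elements in reduced powers; product laws
-/

namespace Pool.Agent.Helper13.PV

open Pool.Agent.Helper32.SmallVar Function Filter

variable {L LU LW : Set (FreeGroup ℕ)}

theorem exists_single (h : ¬ CentralByExponent LU) :
    ∃ (D : Type) (_ : Group D) (x y : D), SatisfiesLaws LU D ∧
      ∀ k : ℕ, 1 ≤ k → x * y ^ k ≠ y ^ k * x := by
  unfold CentralByExponent at h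
  push Not at h
  have h' : ∀ k : ℕ, ∃ (G : Type) (_ : Group G), SatisfiesLaws LU G ∧
      ∃ x y : G, x * y ^ (k + 1) ≠ y ^ (k + 1) * x := by
    intro k
    obtain ⟨G, _, h1, x, y, h2⟩ := h (k + 1) (by omega)
    exact ⟨G, _, h1, x, y, h2⟩
  choose G hG h1 x y h2 using h'
  refine ⟨∀ k, G k, inferInstance, x, y, laws_pi h1, ?_⟩
  intro k hk hcon
  have h3 := congrFun hcon (k - 1)
  obtain ⟨j, rfl⟩ : ∃ j, k = j + 1 := ⟨k - 1, by omega⟩
  exact h2 j h3

theorem floor_eventually (r s : ℚ) : ∀ᶠ k : ℕ in atTop,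
    ⌊(r + s) * (k.factorial : ℚ)⌋ = ⌊r * (k.factorial : ℚ)⌋ + ⌊s * (k.factorial : ℚ)⌋ := by
  have hint : ∀ r : ℚ, ∀ k : ℕ, r.den ≤ k → ∃ z : ℤ, r * (k.factorial : ℚ) = z := by
    intro r k hk
    obtain ⟨c, hc⟩ := Nat.dvd_factorial r.den_pos hk
    refine ⟨r.num * c, ?_⟩
    rw [hc]
    push_cast
    rw [← mul_assoc, Rat.mul_den_eq_num]
  filter_upwards [eventually_ge_atTop (max r.den s.den)] with k hk
  obtain ⟨z, hz⟩ := hint r k (le_trans (le_max_left _ _) hk)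
  obtain ⟨w, hw⟩ := hint s k (le_trans (le_max_right _ _) hk)
  rw [add_mul, hz, hw, Int.floor_intCast, Int.floor_intCast]
  have : (z : ℚ) + (w : ℚ) = ((z + w : ℤ) : ℚ) := by push_cast; ring
  rw [this, Int.floor_intCast]

theorem exists_rat (h : ¬ CentralByExponent LU) :
    ∃ (D : Type) (_ : Group D) (a : D) (β : Multiplicative ℚ →* D), SatisfiesLaws LU D ∧
      a * β (Multiplicative.ofAdd 1) ≠ β (Multiplicative.ofAdd 1) * a := by
  obtain ⟨D, _, x, y, hD, hxy⟩ := exists_single h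
  have hP : SatisfiesLaws LU (ℕ → D) := laws_pi fun _ => hD
  have hG : SatisfiesLaws LU (Germ (atTop : Filter ℕ) D) := by
    refine laws_of_surj (Germ.coeMulHom (atTop : Filter ℕ) : (ℕ → D) →* Germ atTop D) ?_ hP
    intro g
    induction g using Germ.inductionOn with
    | _ f => exact ⟨f, rfl⟩
  let β : Multiplicative ℚ →* Germ (atTop : Filter ℕ) D :=
    MonoidHom.mk' (fun r => ((fun k : ℕ => y ^ ⌊r.toAdd * (k.factorial : ℚ)⌋ : ℕ → D) :
      Germ (atTop : Filter ℕ) D)) (by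
        intro r s
        rw [← Germ.coe_mul, Germ.coe_eq]
        filter_upwards [floor_eventually r.toAdd s.toAdd] with k hk
        rw [Pi.mul_apply, ← zpow_add, toAdd_mul, hk])
  refine ⟨Germ (atTop : Filter ℕ) D, inferInstance, ((fun _ => x : ℕ → D) : Germ atTop D), β,
    hG, ?_⟩
  intro hcon
  have h1 : ((fun k : ℕ => x * y ^ ⌊(1 : ℚ) * (k.factorial : ℚ)⌋ : ℕ → D) :
      Germ (atTop : Filter ℕ) D) =
      ((fun k : ℕ => y ^ ⌊(1 : ℚ) * (k.factorial : ℚ)⌋ * x : ℕ → D) : Germ atTop D) := hcon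
  rw [Germ.coe_eq] at h1
  obtain ⟨k, hk⟩ := h1.exists
  have h2 : ⌊(1 : ℚ) * (k.factorial : ℚ)⌋ = (k.factorial : ℤ) := by
    rw [one_mul, ← Int.cast_natCast (R := ℚ), Int.floor_intCast]
  simp only [h2, zpow_natCast] at hk
  exact hxy k.factorial (Nat.factorial_pos k) hk

theorem nonHopfian_of_not_lf (hU : ¬ CentralByExponent LU) (hW : ¬ LocallyFiniteVariety LW) :
    ∃ (G : Type) (_ : Group G), Group.FG G ∧ InProduct LU LW G ∧ ¬ IsHopfian G := by
  unfold LocallyFiniteVariety at hW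
  push Not at hW
  obtain ⟨Q, _, hfg, hQ, hinf⟩ := hW
  obtain ⟨D, _, a, β, hD, hab⟩ := exists_rat hU
  exact nonHopfian_of_rat β hD hQ hfg hinf a hab

end Pool.Agent.Helper13.PV
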