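import Pool.Agent.Helper13.PV.Defs

/-!
# The laws of a product variety
-/

namespace Pool.Agent.Helper13.PV

open Pool.Agent.Helper32.SmallVar Function

universe u

variable {L LU LW : Set (FreeGroup ℕ)}

theorem countable_closure {G : Type u} [Group G] {s : Set G} (hs : s.Countable) :
    Countable (Subgroup.closure s) := by
  have hc : Countable s := hs
  have h1 : (Subgroup.closure s) = (FreeGroup.lift (Subtype.val : s → G)).range := by
    rw [FreeGroup.range_lift_eq_closure, Subtype.range_coe]
  rw [h1]
  exact (FreeGroup.lift (Subtype.val : s → G)).rangeRestrict_surjective.countable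

theorem map_verb_mono {G : Type u} [Group G] {K K' : Subgroup G} (h : K ≤ K') :
    (verb L K).map K.subtype ≤ (verb L K').map K'.subtype := by
  have h1 : K.subtype = K'.subtype.comp (Subgroup.inclusion h) := rfl
  rw [h1, ← Subgroup.map_map]
  exact Subgroup.map_mono (map_verb_le _)

theorem exists_countable {G : Type u} [Group G] {x : G} (hx : x ∈ verb L G) :
    ∃ s : Set G, s.Countable ∧ x ∈ (verb L (Subgroup.closure s)).map (Subgroup.closure s).subtype := by
  unfold verb Subgroup.normalClosure at hx
  induction hx using Subgroup.closure_induction with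
  | mem y hy =>
    obtain ⟨z, ⟨w, hw, a, rfl⟩, hz⟩ := Group.mem_conjugatesOfSet_iff.mp hy
    obtain ⟨g, rfl⟩ := isConj_iff.mp hz
    refine ⟨insert g (Set.range a), (Set.countable_range a).insert g, ?_⟩
    set K := Subgroup.closure (insert g (Set.range a)) with hK
    have hg : g ∈ K := Subgroup.subset_closure (Set.mem_insert _ _)
    have ha : ∀ n, a n ∈ K := fun n =>
      Subgroup.subset_closure (Set.mem_insert_of_mem _ ⟨n, rfl⟩)
    have h1 : FreeGroup.lift (fun n => (⟨a n, ha n⟩ : K)) w ∈ verb L K :=
      Subgroup.subset_normalClosure ⟨w, hw, _, rfl⟩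
    have h2 := Subgroup.Normal.conj_mem inferInstance _ h1 (⟨g, hg⟩ : K)
    refine ⟨_, h2, ?_⟩
    rw [map_mul, map_mul, map_inv, map_lift]
    rfl
  | one => exact ⟨∅, Set.countable_empty, Subgroup.one_mem _⟩
  | mul y z _ _ hy hz =>
    obtain ⟨s, hs, h1⟩ := hy
    obtain ⟨t, ht, h2⟩ := hz
    refine ⟨s ∪ t, hs.union ht, Subgroup.mul_mem _ ?_ ?_⟩
    · exact map_verb_mono (Subgroup.closure_mono Set.subset_union_left) h1
    · exact map_verb_mono (Subgroup.closure_mono Set.subset_union_right) h2
  | inv y _ hy =>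
    obtain ⟨s, hs, h1⟩ := hy
    exact ⟨s, hs, Subgroup.inv_mem _ h1⟩

/-- The groups satisfying the laws `prodLaws LU LW` are exactly the groups of the product
variety. -/
theorem prodLaws_iff {G : Type u} [Group G] :
    SatisfiesLaws (prodLaws LU LW) G ↔ InProduct LU LW G := by
  rw [inProduct_iff]
  constructor
  · intro h w hw a
    choose s hs1 hs2 using fun n => exists_countable (a n).2
    let K := Subgroup.closure (⋃ n, s n)
    have hK : Countable K := countable_closure (Set.countable_iUnion hs1)
    have ha : ∀ n, (a n : G) ∈ (verb LW K).map K.subtype := fun n =>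
      map_verb_mono (Subgroup.closure_mono (Set.subset_iUnion s n)) (hs2 n)
    obtain ⟨e, he⟩ := exists_surjective_nat K
    have hsur : Surjective (FreeGroup.lift e) := by
      intro k
      obtain ⟨n, rfl⟩ := he k
      exact ⟨FreeGroup.of n, by simp⟩
    have hb : ∀ n, ∃ ψ ∈ verb LW (FreeGroup ℕ), (FreeGroup.lift e ψ : G) = a n := by
      intro n
      obtain ⟨k, hk, hk2⟩ := ha n
      obtain ⟨ψ, hψ, hψ2⟩ := (map_verb (L := LW) (FreeGroup.lift e) hsur).ge hk
      exact ⟨ψ, hψ, by rw [hψ2]; exact hk2⟩
    choose ψ hψ1 hψ2 using hb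
    have h1 := h _ ⟨w, hw, ψ, hψ1, rfl⟩ (fun n => (e n : G))
    apply Subtype.ext
    have h2 := map_lift (verb LW G).subtype a w
    have h3 : (fun n => (verb LW G).subtype (a n)) =
        fun n => FreeGroup.lift (fun n => (e n : G)) (ψ n) := by
      funext n
      have h4 := map_lift K.subtype e (ψ n)
      exact (hψ2 n).symm.trans h4
    rw [h3, ← map_lift, h1] at h2
    exact h2
  · rintro h _ ⟨u, hu, ψ, hψ, rfl⟩ a
    rw [map_lift]
    have h1 : ∀ n, FreeGroup.lift a (ψ n) ∈ verb LW G := fun n =>
      map_verb_le (FreeGroup.lift a) ⟨_, hψ n, rfl⟩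
    have h2 := map_lift (verb LW G).subtype (fun n => ⟨_, h1 n⟩) u
    rw [h u hu, map_one] at h2
    exact h2.symm

end Pool.Agent.Helper13.PV
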