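import Pool.Agent.Helper13.PV.Defs

/-!
# The construction of non-Hopfian groups
-/

namespace Pool.Agent.Helper13.PV

open Pool.Agent.Helper32.SmallVar Function

variable {LU LW : Set (FreeGroup ℕ)}

section Tool

variable {ι : Type} (A : FreeGroup ι →* FreeGroup ι) {P : Type} [Group P]
  (ρ : FreeGroup ι →* P)

/-- The words killed by all homomorphisms `ρ ∘ A ^ i`. -/
def comKer : Subgroup (FreeGroup ι) where
  carrier := {x | ∀ i : ℕ, ρ (A^[i] x) = 1}
  one_mem' := fun i => by rw [iterate_map_one, map_one]
  mul_mem' := by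
    intro a b ha hb i
    rw [iterate_map_mul, map_mul, ha i, hb i, mul_one]
  inv_mem' := by
    intro a ha i
    rw [iterate_map_inv, map_inv, ha i, inv_one]

theorem mem_comKer {x : FreeGroup ι} : x ∈ comKer A ρ ↔ ∀ i : ℕ, ρ (A^[i] x) = 1 := Iff.rfl

instance comKer_normal : (comKer A ρ).Normal := by
  constructor
  intro n hn g i
  rw [iterate_map_mul, iterate_map_mul, iterate_map_inv, map_mul, map_mul, hn i, mul_one,
    map_inv, mul_inv_cancel]

/-- The endomorphism induced by `A`. -/
def indEnd : FreeGroup ι ⧸ comKer A ρ →* FreeGroup ι ⧸ comKer A ρ :=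
  QuotientGroup.map (comKer A ρ) (comKer A ρ) A (by
    intro x hx i
    rw [← iterate_succ_apply]
    exact hx (i + 1))

theorem tool [Finite ι] (hA : Surjective A) (hP : InProduct LU LW P) (v : FreeGroup ι)
    (h0 : ρ v ≠ 1) (h1 : ∀ i : ℕ, ρ (A^[i + 1] v) = 1) :
    ∃ (G : Type) (_ : Group G), Group.FG G ∧ InProduct LU LW G ∧ ¬ IsHopfian G := by
  refine ⟨FreeGroup ι ⧸ comKer A ρ, inferInstance, inferInstance, ?_, ?_⟩
  · refine inProduct_quotient (I := ℕ) (P := fun _ => P) (fun _ => hP)
      (fun i => ρ.comp (it A i)) (comKer A ρ) ?_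
    intro f hf i
    exact hf i
  · intro hH
    have hs : Surjective (indEnd A ρ) := by
      intro y
      obtain ⟨z, rfl⟩ := QuotientGroup.mk'_surjective (comKer A ρ) y
      obtain ⟨x, rfl⟩ := hA z
      exact ⟨QuotientGroup.mk' _ x, rfl⟩
    have hi := hH _ hs
    have h2 : indEnd A ρ (QuotientGroup.mk' _ v) = 1 := by
      show QuotientGroup.mk' _ (A v) = 1
      rw [QuotientGroup.mk'_apply, QuotientGroup.eq_one_iff]
      intro i
      rw [← iterate_succ_apply]
      exact h1 i
    have h3 : QuotientGroup.mk' (comKer A ρ) v = 1 := by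
      apply hi
      rw [h2, map_one]
    rw [QuotientGroup.mk'_apply, QuotientGroup.eq_one_iff] at h3
    exact h0 (h3 0)

end Tool

section Wreath

variable {D Q : Type} [Group D] [Group Q]

/-- The base group of the wreath product. -/
def bas : (Q → D) →* RegularWreathProduct D Q where
  toFun f := ⟨f, 1⟩
  map_one' := rfl
  map_mul' f g := by
    ext x <;> simp

theorem bas_inj : Injective (bas : (Q → D) →* RegularWreathProduct D Q) := by
  intro f g h
  exact congrArg RegularWreathProduct.left h

theorem conj_bas (q : Q) (f : Q → D) :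
    RegularWreathProduct.inl q * bas f * (RegularWreathProduct.inl q)⁻¹ =
      bas (fun x => f (q⁻¹ * x)) := by
  ext x <;> simp [bas]

theorem wreath_inProduct (hD : SatisfiesLaws LU D) (hQ : SatisfiesLaws LW Q) :
    InProduct LU LW (RegularWreathProduct D Q) := by
  refine ⟨(RegularWreathProduct.rightHom : RegularWreathProduct D Q →* Q).ker, inferInstance,
    ?_, ?_⟩
  · let g : (RegularWreathProduct.rightHom : RegularWreathProduct D Q →* Q).ker →* (Q → D) :=
      { toFun := fun a => (a : RegularWreathProduct D Q).left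
        map_one' := rfl
        map_mul' := by
          rintro ⟨a, ha⟩ ⟨b, hb⟩
          have ha' : a.right = 1 := ha
          funext x
          simp [ha'] }
    refine laws_of_inj g ?_ (laws_pi fun _ => hD)
    rintro ⟨a, ha⟩ ⟨b, hb⟩ hab
    have ha' : a.right = 1 := ha
    have hb' : b.right = 1 := hb
    apply Subtype.ext
    apply RegularWreathProduct.ext
    · exact hab
    · rw [ha', hb']
  · exact laws_of_inj (QuotientGroup.kerLift _) (QuotientGroup.kerLift_injective _) hQ

/-- The commutator of an element at the coordinate `1` with an element of the base group. -/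
theorem comm_single [DecidableEq Q] (a : D) (g : Q → D) :
    bas (Pi.mulSingle 1 a) * bas g * (bas (Pi.mulSingle 1 a))⁻¹ * (bas g)⁻¹ =
      (1 : RegularWreathProduct D Q) ↔ a * g 1 = g 1 * a := by
  rw [← map_inv, ← map_inv, ← map_mul, ← map_mul, ← map_mul, map_eq_one_iff _ bas_inj]
  constructor
  · intro h
    have h1 := congrFun h 1
    simp only [Pi.mul_apply, Pi.inv_apply, Pi.mulSingle_eq_same, Pi.one_apply] at h1
    rw [mul_inv_eq_one, mul_inv_eq_iff_eq_mul] at h1
    exact h1
  · intro h
    funext x
    by_cases hx : x = 1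
    · subst hx
      simp only [Pi.mul_apply, Pi.inv_apply, Pi.mulSingle_eq_same, Pi.one_apply]
      rw [mul_inv_eq_one, mul_inv_eq_iff_eq_mul]
      exact h
    · simp [Pi.mulSingle_eq_of_ne hx]

end Wreath

end Pool.Agent.Helper13.PV
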